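import Pool.Agent.H36.Maj

open Pool.Agent.H38.NP Pool.Agent.H36.Maj

theorem Pool.Agent.Results.MP_1ffe94_lc.InP.result : InPOn Valid Maj :=
  inP
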